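import Pool.Agent.H949.FH.Final

/-!
# Two-type frog model in continuous time: coexistence at equal rates in every dimension

The two-type process with equal rates is the one-type process with two sources: the type of a
site is the type of the source with the smaller passage time. Along the first axis the passage times from the
occupied sites form a stationary subadditive array. If a shape theorem holds, then for large `m` an occupied
site `j m` is typically good: all passage times from it to the sites `(j + k) m` are nearly linear. Telescoping over the
good sites shows that for most `k` the site `k m` is reached sooner from `m` than from `0`, and the same in the other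
direction, with a probability as near as we want to the probability that `0` and `m` are occupied.
-/

set_option autoImplicit false

open MeasureTheory ProbabilityTheory
open scoped ENNReal

namespace Pool.Agent.Results.MP_53e2a7_pr.EqualRates

open H949.FH

/-- The two types can coexist: for some `z ≠ 0`, with positive probability the two-type process started from `0` and
`z` exists and, in every outcome, both types activate infinitely many particles. -/
def CanCoexist (d : ℕ) [NeZero d] (ν : Measure ℕ) [IsProbabilityMeasure ν] (β : ℝ) : Prop :=
  ∃ z : Site d, z ≠ 0 ∧ ∃ E : Set (Config d), MeasurableSet E ∧ 0 < law d ν E ∧ ∀ ω ∈ E,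
    (∃ (t : Site d → ℝ≥0∞) (c : Site d → Bool), IsOutcome β z ω t c) ∧
    ∀ (t : Site d → ℝ≥0∞) (c : Site d → Bool), IsOutcome β z ω t c →
      {x | 1 ≤ (ω x).1 ∧ t x ≠ ∞ ∧ c x = false}.Infinite ∧
      {x | 1 ≤ (ω x).1 ∧ t x ≠ ∞ ∧ c x = true}.Infinite

/-- In every dimension, for every law `ν` of the numbers of particles which gives rise to a bounded shape,
coexistence is possible with equal jump rates. -/
theorem result (d : ℕ) [NeZero d] (ν : Measure ℕ) [IsProbabilityMeasure ν] (hν : ν {0} ≠ 1)
    (h : BoundedShape d ν) : CanCoexist d ν 1 :=
  same_rate d ν hν h

end Pool.Agent.Results.MP_53e2a7_pr.EqualRates
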