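import Pool.Agent.H949.FH.Line
import Pool.Agent.H949.FK.Final

/-!
# Two-type frog model in continuous time on the line: coexistence at all rates

One particle per site on the line gives rise to a bounded shape (subadditive ergodic theorem), and coexistence is
possible for every jump rate `β` in `(0, 1]`: the walks of the sites `x ≤ 0` and those of the sites `x ≥ 1` have a
positive probability not to cross the interface before the other side has been activated, whatever the two jump rates
are. So the equivalence of the question fails.
-/

set_option autoImplicit false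

open MeasureTheory ProbabilityTheory
open scoped ENNReal

namespace Pool.Agent.Results.MP_53e2a7_pr.LineDisproof

open H949.FH

/-- The two types can coexist: for some `z ≠ 0`, with positive probability the two-type process started from `0` and
`z` exists and, in every outcome, both types activate infinitely many particles. -/
def CanCoexist (d : ℕ) [NeZero d] (ν : Measure ℕ) [IsProbabilityMeasure ν] (β : ℝ) : Prop :=
  ∃ z : Site d, z ≠ 0 ∧ ∃ E : Set (Config d), MeasurableSet E ∧ 0 < law d ν E ∧ ∀ ω ∈ E,
    (∃ (t : Site d → ℝ≥0∞) (c : Site d → Bool), IsOutcome β z ω t c) ∧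
    ∀ (t : Site d → ℝ≥0∞) (c : Site d → Bool), IsOutcome β z ω t c →
      {x | 1 ≤ (ω x).1 ∧ t x ≠ ∞ ∧ c x = false}.Infinite ∧
      {x | 1 ≤ (ω x).1 ∧ t x ≠ ∞ ∧ c x = true}.Infinite

/-- On the line, one particle per site gives rise to a bounded shape, and coexistence is possible for every jump
rate `β` in `(0, 1]` of type 2, not only for `β = 1`. -/
theorem result : BoundedShape 1 (Measure.dirac 1) ∧
    ∀ β : ℝ, 0 < β → β ≤ 1 → CanCoexist 1 (Measure.dirac 1) β :=
  ⟨H949.FK.bounded_shape, fun _ hβ hβ1 => line hβ hβ1⟩

end Pool.Agent.Results.MP_53e2a7_pr.LineDisproof
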